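import Pool.Agent.W802.BA.Stms

/-! BA-INT (helper440): from the quasiconvex function to the integral inequality; adapted from
`Pool.Agent.W779.Morrey.beurling_four`. -/

set_option autoImplicit false

open MeasureTheory Set Filter Topology

namespace Pool.Agent.W440.BA

open Pool.Agent.W779.Morrey
open Pool.Agent.W802.BA

theorem int : S_Int := by
  intro p C K W hp hC hK hW hcert hW0 hWle f hf hc
  have hp0 : 0 < p := by linarith
  set ϑ : V → V := fun x => ofC (f (toC x)) with hϑ
  have hϑd : ContDiff ℝ 1 ϑ := ofC.contDiff.comp (hf.comp toC.contDiff)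
  -- compact support
  obtain ⟨R, hR⟩ := hc.isCompact.isBounded.subset_closedBall (0 : ℂ)
  have hzero : ∀ z : ℂ, R < ‖z‖ → f z = 0 := by
    intro z hz
    by_contra hne
    have h1 : z ∈ tsupport f := subset_tsupport f hne
    have h2 := hR h1
    rw [Metric.mem_closedBall, dist_zero_right] at h2
    linarith
  have hnorm : ∀ (x : V) (i : Fin 2), |x i| ≤ ‖toC x‖ := by
    intro x i
    rw [toC_apply]
    fin_cases i
    · have := Complex.abs_re_le_norm ((x 0 : ℂ) + (x 1 : ℂ) * Complex.I)
      simpa using this
    · have := Complex.abs_im_le_norm ((x 0 : ℂ) + (x 1 : ℂ) * Complex.I)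
      simpa using this
  set Ω : Set V := Metric.ball 0 (|R| + 1) with hΩ
  have hoff : ∀ x, x ∉ Ω → f (toC x) = 0 := by
    intro x hx
    refine hzero _ ?_
    rw [hΩ, Metric.mem_ball, dist_zero_right, not_lt] at hx
    by_contra hcon
    push Not at hcon
    have h1 : ‖x‖ ≤ R := (pi_norm_le_iff_of_nonneg ((norm_nonneg _).trans hcon)).2 fun i =>
      (hnorm x i).trans hcon
    have := le_abs_self R
    linarith
  have h0 : ∀ x, x ∉ Ω → ϑ x = 0 := by
    intro x hx
    rw [hϑ]
    simp only
    rw [hoff x hx, map_zero]
  have hcs : HasCompactSupport ϑ := by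
    refine HasCompactSupport.intro (K := Metric.closedBall 0 (|R| + 1)) (isCompact_closedBall _ _)
      fun x hx => h0 x fun h => hx (Metric.ball_subset_closedBall h)
  obtain ⟨K', hK'⟩ := hϑd.lipschitzWith_of_hasCompactSupport hcs (by norm_num)
  have h := qc_of_trig hW hcert 0 Metric.isOpen_ball Metric.isBounded_ball hK' h0
  rw [hW0, zero_mul] at h
  simp only [zero_add] at h
  -- rewrite everything on the plane
  have hdc : Continuous (fun z => fderiv ℝ f z) := hf.continuous_fderiv (by norm_num)
  have hfd0 : ∀ x, x ∉ Metric.closedBall (0 : V) (|R| + 1) → fderiv ℝ f (toC x) = 0 := by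
    intro x hx
    have h1 : ¬ (toC x ∈ tsupport f) := by
      intro hmem
      have h2 := hR hmem
      rw [Metric.mem_closedBall, dist_zero_right] at h2
      apply hx
      rw [Metric.mem_closedBall, dist_zero_right]
      refine (pi_norm_le_iff_of_nonneg (by positivity)).2 fun i => ?_
      have := hnorm x i
      have h3 := le_abs_self R
      rw [Real.norm_eq_abs]
      linarith
    exact image_eq_zero_of_notMem_tsupport (fun h => h1 (tsupport_fderiv_subset ℝ h))
  have cz : Continuous (fun x : V => ‖dz f (toC x)‖ ^ p) := by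
    unfold dz
    have c1 : Continuous (fun x : V => fderiv ℝ f (toC x)) := hdc.comp toC.continuous
    exact ((continuous_const.mul ((c1.clm_apply continuous_const).sub
      (continuous_const.mul (c1.clm_apply continuous_const)))).norm).rpow_const
      fun _ => Or.inr hp0.le
  have czb : Continuous (fun x : V => ‖dzbar f (toC x)‖ ^ p) := by
    unfold dzbar
    have c1 : Continuous (fun x : V => fderiv ℝ f (toC x)) := hdc.comp toC.continuous
    exact ((continuous_const.mul ((c1.clm_apply continuous_const).add
      (continuous_const.mul (c1.clm_apply continuous_const)))).norm).rpow_const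
      fun _ => Or.inr hp0.le
  have sz : HasCompactSupport (fun x : V => ‖dz f (toC x)‖ ^ p) := by
    refine HasCompactSupport.intro (K := Metric.closedBall 0 (|R| + 1)) (isCompact_closedBall _ _)
      fun x hx => ?_
    simp [dz, hfd0 x hx, Real.zero_rpow hp0.ne']
  have szb : HasCompactSupport (fun x : V => ‖dzbar f (toC x)‖ ^ p) := by
    refine HasCompactSupport.intro (K := Metric.closedBall 0 (|R| + 1)) (isCompact_closedBall _ _)
      fun x hx => ?_
    simp [dzbar, hfd0 x hx, Real.zero_rpow hp0.ne']
  have iz := cz.integrable_of_hasCompactSupport (μ := volume) sz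
  have izb := czb.integrable_of_hasCompactSupport (μ := volume) szb
  have hle : ∫ x in Ω, W (gr ϑ x)
      ≤ ∫ x : V, K * (C * ‖dz f (toC x)‖ ^ p - ‖dzbar f (toC x)‖ ^ p) := by
    have hWz : ∀ x, x ∉ Metric.closedBall (0 : V) (|R| + 1) → W (gr ϑ x) = 0 := by
      intro x hx
      have hg : gr ϑ x = 0 := by
        rw [hϑ, gr_comp hf, hfd0 x hx]
        funext r l
        fin_cases r <;> fin_cases l <;> simp
      rw [hg, hW0]
    have hWc : Continuous (fun x => W (gr ϑ x)) := hW.comp (continuous_gr hϑd)
    have hWs : HasCompactSupport (fun x => W (gr ϑ x)) :=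
      HasCompactSupport.intro (K := Metric.closedBall 0 (|R| + 1)) (isCompact_closedBall _ _) hWz
    have hWi := hWc.integrable_of_hasCompactSupport (μ := volume) hWs
    have e1 : ∫ x in Ω, W (gr ϑ x) = ∫ x : V, W (gr ϑ x) := by
      refine setIntegral_eq_integral_of_ae_compl_eq_zero ?_
      have := Pool.Agent.Helper188.Morrey.grad_off hK' Metric.isOpen_ball h0
      rw [ae_restrict_iff' Metric.isOpen_ball.measurableSet.compl] at this
      filter_upwards [this] with x hx hx'
      have hx3 : gr ϑ x = 0 := by
        rw [gr_eq_grad, hx hx']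
        rfl
      rw [hx3]
      exact hW0
    rw [e1]
    refine integral_mono hWi (((iz.const_mul C).sub izb).const_mul K) fun x => ?_
    simp only
    have h1 := hWle (gr ϑ x)
    rw [hϑ, pP_gr hf, pQ_gr hf, Real.sqrt_sq (norm_nonneg _), Real.sqrt_sq (norm_nonneg _)] at h1
    exact h1
  rw [integral_const_mul, integral_sub (iz.const_mul C) izb, integral_const_mul] at hle
  rw [integral_toC (fun z => ‖dzbar f z‖ ^ p), integral_toC (fun z => ‖dz f z‖ ^ p)]
  have h2 := h.trans hle
  have h3 : 0 ≤ C * (∫ x : V, ‖dz f (toC x)‖ ^ p) - ∫ x : V, ‖dzbar f (toC x)‖ ^ p :=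
    nonneg_of_mul_nonneg_right h2 hK
  linarith

end Pool.Agent.W440.BA
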