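import Pool.Agent.W802.BA.Stms

/-! BA-LIM (helper440): continuity of the limit function of the family. -/

set_option autoImplicit false

open MeasureTheory Set Filter Topology Polynomial

namespace Pool.Agent.W440.BA

open Pool.Agent.W779.Morrey
open Pool.Agent.W802.BA

/-- the closed quadrant -/
def Qd : Set (ℝ × ℝ) := Ici 0 ×ˢ Ici 0

theorem ratio_mem {p s t : ℝ} (hp : 0 < p) (hs : 0 ≤ s) (ht : 0 ≤ t) :
    t / (t + p * s) ∈ Icc (0 : ℝ) 1 := by
  have h : 0 ≤ p * s := mul_nonneg hp.le hs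
  refine ⟨by positivity, ?_⟩
  rcases eq_or_lt_of_le (add_nonneg ht h) with h0 | h0
  · rw [← h0, div_zero]
    exact zero_le_one
  · rw [div_le_one h0]
    linarith

theorem hom_cont (p e : ℝ) (hp : 0 < p) (he : 0 < e) (g : ℝ[X]) :
    ContinuousOn (fun q : ℝ × ℝ => hom p e g q.1 q.2) Qd := by
  intro q hq
  obtain ⟨hq1, hq2⟩ := hq
  have hq1 : 0 ≤ q.1 := hq1
  have hq2 : 0 ≤ q.2 := hq2
  by_cases h0 : q = (0, 0)
  · -- at the origin
    subst h0
    obtain ⟨B, hB⟩ := (isCompact_Icc (a := (0 : ℝ)) (b := 1)).exists_bound_of_continuousOn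
      (f := fun x => g.eval x) g.continuous.continuousOn
    have hv : hom p e g (0 : ℝ) 0 = 0 := by
      unfold hom
      rw [mul_zero, add_zero, Real.zero_rpow he.ne', zero_mul]
    have hlim : Tendsto (fun q : ℝ × ℝ => (q.2 + 2 * q.1) ^ e * B) (𝓝[Qd] (0, 0)) (𝓝 0) := by
      have hc : Continuous (fun q : ℝ × ℝ => (q.2 + 2 * q.1) ^ e * B) := by
        refine Continuous.mul ?_ continuous_const
        exact (by fun_prop : Continuous fun q : ℝ × ℝ => q.2 + 2 * q.1).rpow_const
          fun _ => Or.inr he.le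
      have h := (hc.tendsto (0, 0)).mono_left (nhdsWithin_le_nhds (s := Qd))
      simpa [Real.zero_rpow he.ne'] using h
    unfold ContinuousWithinAt
    simp only
    rw [hv]
    refine squeeze_zero_norm' ?_ hlim
    filter_upwards [self_mem_nhdsWithin] with r hr
    have hr1 : 0 ≤ r.1 := hr.1
    have hr2 : 0 ≤ r.2 := hr.2
    unfold hom
    rw [norm_mul, Real.norm_of_nonneg (Real.rpow_nonneg (by positivity) _)]
    exact mul_le_mul_of_nonneg_left (hB _ (ratio_mem hp hr1 hr2))
      (Real.rpow_nonneg (by positivity) _)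
  · have hne : q.2 + p * q.1 ≠ 0 := by
      intro h
      apply h0
      have h1 : 0 ≤ p * q.1 := mul_nonneg hp.le hq1
      have h2 : q.2 = 0 := by linarith
      have h3 : p * q.1 = 0 := by linarith
      have h4 : q.1 = 0 := (mul_eq_zero.1 h3).resolve_left hp.ne'
      exact Prod.ext h4 h2
    have c1 : ContinuousAt (fun q : ℝ × ℝ => (q.2 + 2 * q.1) ^ e) q :=
      ((by fun_prop : Continuous fun q : ℝ × ℝ => q.2 + 2 * q.1).rpow_const
        fun _ => Or.inr he.le).continuousAt
    have c2 : ContinuousAt (fun q : ℝ × ℝ => q.2 / (q.2 + p * q.1)) q :=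
      ContinuousAt.div (by fun_prop) (by fun_prop) hne
    have c3 : ContinuousAt (fun q : ℝ × ℝ => g.eval (q.2 / (q.2 + p * q.1))) q :=
      ContinuousAt.comp (f := fun q : ℝ × ℝ => q.2 / (q.2 + p * q.1)) (g := fun x => g.eval x)
        g.continuous.continuousAt c2
    exact (c1.mul c3).continuousWithinAt

theorem cont_pP : Continuous pP := by
  unfold pP
  fun_prop

theorem cont_pQ : Continuous pQ := by
  unfold pQ
  fun_prop

theorem lim : S_Lim := by
  intro p R hp
  have hp0 : 0 < p := by linarith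
  have hc := hom_cont p p hp0 hp0 R
  refine ⟨?_, fun F => ?_⟩
  · have h1 : Continuous (fun F : E => ((√(pP F), √(pQ F)) : ℝ × ℝ)) :=
      (Real.continuous_sqrt.comp cont_pP).prodMk (Real.continuous_sqrt.comp cont_pQ)
    exact hc.comp_continuous h1 fun F => ⟨Real.sqrt_nonneg _, Real.sqrt_nonneg _⟩
  · have h1 : Continuous (fun ε : ℝ => ((√(pP F + ε ^ 2), √(pQ F + ε ^ 2)) : ℝ × ℝ)) := by
      fun_prop
    have h2 : Continuous (fun ε : ℝ => Wr (hom p p R) ε F) :=
      hc.comp_continuous h1 fun ε => ⟨Real.sqrt_nonneg _, Real.sqrt_nonneg _⟩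
    have h3 := (h2.tendsto 0).mono_left (nhdsWithin_le_nhds (s := Ioi (0 : ℝ)))
    have h4 : Wr (hom p p R) 0 F = hom p p R (√(pP F)) (√(pQ F)) := by
      unfold Wr sg tg
      norm_num
    rw [h4] at h3
    exact h3

end Pool.Agent.W440.BA
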